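import Pool.Agent.Helper60.MF.Cx

set_option autoImplicit false

/-!
# Tournaments which describe pairs of dense linear orders
-/

namespace Pool.Agent.Helper38.MT

open FirstOrder FirstOrder.Language
open Pool.Agent.W889.FO Pool.Agent.W889.VC
open Pool.Agent.W889.FO.StA (FD.all1 FD.ex1)
open Pool.Agent.W889.FO.StE (LG gd fd_gd)
open Pool.Agent.TH686.FO Pool.Agent.TH686.DO

/-- `v` is the least element of the out-neighbourhood of `u` -/
def pr {X : Type} (r : X → X → Prop) (u v : X) : Prop := r u v ∧ ∀ w, r u w → w ≠ v → r v w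

/-- the first class -/
def dr {X : Type} (r : X → X → Prop) (u : X) : Prop := ∃ v, pr r u v

/-- Tournaments which consist of two dense linear orders and a matching. -/
structure TR {X : Type} (r : X → X → Prop) : Prop where
  ir : ∀ u, ¬ r u u
  as : ∀ u v, r u v → ¬ r v u
  tt : ∀ u v, u ≠ v → r u v ∨ r v u
  pb : ∀ u v, pr r u v → ¬ dr r v
  pc : ∀ v, ¬ dr r v → ∃ u, pr r u v
  cr : ∀ u v, dr r u → ¬ dr r v → ¬ pr r u v → r v u
  t0 : ∀ u v w, dr r u → dr r v → dr r w → r u v → r v w → r u w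
  t1 : ∀ u v w, ¬ dr r u → ¬ dr r v → ¬ dr r w → r u v → r v w → r u w
  d0 : ∀ u v, dr r u → dr r v → r u v → ∃ w, dr r w ∧ r u w ∧ r w v
  d1 : ∀ u v, ¬ dr r u → ¬ dr r v → r u v → ∃ w, ¬ dr r w ∧ r u w ∧ r w v
  a0 : ∀ u, dr r u → ∃ w, dr r w ∧ r u w
  b0 : ∀ u, dr r u → ∃ w, dr r w ∧ r w u
  a1 : ∀ u, ¬ dr r u → ∃ w, ¬ dr r w ∧ r u w
  b1 : ∀ u, ¬ dr r u → ∃ w, ¬ dr r w ∧ r w u

section

variable {X : Type} {r : X → X → Prop}

theorem TR.fn (h : TR r) {u v v' : X} (h1 : pr r u v) (h2 : pr r u v') : v = v' := by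
  by_contra hne
  exact h.as _ _ (h1.2 v' h2.1 fun e => hne e.symm) (h2.2 v h1.1 hne)

theorem TR.inj (h : TR r) {u u' v : X} (h1 : pr r u v) (h2 : pr r u' v) : u = u' := by
  by_contra hne
  rcases h.tt u u' hne with h3 | h3
  · exact h.as _ _ h2.1 (h1.2 u' h3 fun e => h.ir v (by rw [e] at h2; exact h2.1))
  · exact h.as _ _ h1.1 (h2.2 u h3 fun e => h.ir v (by rw [e] at h1; exact h1.1))

theorem TR.out (h : TR r) {u v : X} (hu : dr r u) (hv : ¬ dr r v) : r u v ↔ pr r u v := by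
  constructor
  · intro h1
    by_contra h2
    exact h.as _ _ h1 (h.cr u v hu hv h2)
  · exact fun h1 => h1.1

theorem TR.flip (h : TR r) {u v : X} (hne : u ≠ v) : r u v ↔ ¬ r v u := by
  constructor
  · exact fun h1 => h.as _ _ h1
  · intro h1
    rcases h.tt u v hne with h2 | h2
    · exact h2
    · exact absurd h2 h1

/-- every vertex has a transitive out-neighbourhood or a transitive in-neighbourhood -/
theorem TR.near (h : TR r) (u : X) :
    (∀ x y z, r u x → r u y → r u z → r x y → r y z → r x z) ∨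
      ∀ x y z, r x u → r y u → r z u → r x y → r y z → r x z := by
  by_cases hu : dr r u
  · left
    obtain ⟨p, hp⟩ := hu
    have key : ∀ x, r u x → x = p ∨ (dr r x ∧ r p x) := by
      intro x hx
      by_cases hxp : x = p
      · exact Or.inl hxp
      · right
        refine ⟨?_, hp.2 x hx hxp⟩
        by_contra hd
        exact hxp (h.fn ((h.out ⟨p, hp⟩ hd).1 hx) hp)
    intro x y z hx hy hz hxy hyz
    rcases key x hx with rfl | ⟨dx, px⟩
    · rcases key z hz with rfl | ⟨dz, pz⟩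
      · exact absurd hxy (h.as _ _ hyz)
      · exact pz
    · rcases key y hy with rfl | ⟨dy, py⟩
      · exact absurd hxy (h.as _ _ px)
      · rcases key z hz with rfl | ⟨dz, pz⟩
        · exact absurd hyz (h.as _ _ py)
        · exact h.t0 x y z dx dy dz hxy hyz
  · right
    obtain ⟨q, hq⟩ := h.pc u hu
    have key : ∀ x, r x u → x = q ∨ (¬ dr r x ∧ r x q) := by
      intro x hx
      by_cases hd : dr r x
      · exact Or.inl (h.inj ((h.out hd hu).1 hx) hq)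
      · refine Or.inr ⟨hd, h.cr q x ⟨u, hq⟩ hd fun h1 => ?_⟩
        have e := h.fn h1 hq
        rw [e] at hx
        exact h.ir _ hx
    intro x y z hx hy hz hxy hyz
    rcases key z hz with rfl | ⟨dz, pz⟩
    · rcases key x hx with rfl | ⟨dx, px⟩
      · exact absurd hxy (h.as _ _ hyz)
      · exact px
    · rcases key y hy with rfl | ⟨dy, py⟩
      · exact absurd hyz (h.as _ _ pz)
      · rcases key x hx with rfl | ⟨dx, px⟩
        · exact absurd hxy (h.as _ _ py)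
        · exact h.t1 x y z dx dy dz hxy hyz

end

/-- the class of tournaments -/
def TW (S : LG.Structure ℕ) : Prop := TR (gd S)

theorem fb_pr : FB (fun S : LG.Structure ℕ => pr (gd S)) := fun i j =>
  (fb_gd i j).and <| FD.all1 <| (fb_gd (Sum.inl i) x0).imp <|
    (FD.eq x0 (Sum.inl j)).not.imp (fb_gd (Sum.inl j) x0)

theorem fu_dr : FU (fun S : LG.Structure ℕ => dr (gd S)) := fun i =>
  FD.ex1 (fb_pr (Sum.inl i) x0)

theorem ax_TW : Ax TW := by
  have h1 : Ax (fun S : LG.Structure ℕ => ∀ u, ¬ gd S u u) := Ax.of <| FD.all1 <| (fb_gd x0 x0).not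
  have h2 : Ax (fun S : LG.Structure ℕ => ∀ u v, gd S u v → ¬ gd S v u) :=
    Ax.of <| FD.all1 <| FD.all1 <| (fb_gd x1 x0).imp (fb_gd x0 x1).not
  have h3 : Ax (fun S : LG.Structure ℕ => ∀ u v, u ≠ v → gd S u v ∨ gd S v u) :=
    Ax.of <| FD.all1 <| FD.all1 <| (FD.eq x1 x0).not.imp <| (fb_gd x1 x0).or (fb_gd x0 x1)
  have h4 : Ax (fun S : LG.Structure ℕ => ∀ u v, pr (gd S) u v → ¬ dr (gd S) v) :=
    Ax.of <| FD.all1 <| FD.all1 <| (fb_pr x1 x0).imp (fu_dr x0).not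
  have h5 : Ax (fun S : LG.Structure ℕ => ∀ v, ¬ dr (gd S) v → ∃ u, pr (gd S) u v) :=
    Ax.of <| FD.all1 <| (fu_dr x0).not.imp <| FD.ex1 (fb_pr x0 x1)
  have h6 : Ax (fun S : LG.Structure ℕ => ∀ u v, dr (gd S) u → ¬ dr (gd S) v → ¬ pr (gd S) u v →
      gd S v u) :=
    Ax.of <| FD.all1 <| FD.all1 <| (fu_dr x1).imp <| (fu_dr x0).not.imp <|
      (fb_pr x1 x0).not.imp (fb_gd x0 x1)
  have h7 : Ax (fun S : LG.Structure ℕ => ∀ u v w, dr (gd S) u → dr (gd S) v → dr (gd S) w →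
      gd S u v → gd S v w → gd S u w) :=
    Ax.of <| FD.all1 <| FD.all1 <| FD.all1 <| (fu_dr x2).imp <| (fu_dr x1).imp <| (fu_dr x0).imp <|
      (fb_gd x2 x1).imp <| (fb_gd x1 x0).imp (fb_gd x2 x0)
  have h8 : Ax (fun S : LG.Structure ℕ => ∀ u v w, ¬ dr (gd S) u → ¬ dr (gd S) v →
      ¬ dr (gd S) w → gd S u v → gd S v w → gd S u w) :=
    Ax.of <| FD.all1 <| FD.all1 <| FD.all1 <| (fu_dr x2).not.imp <| (fu_dr x1).not.imp <|
      (fu_dr x0).not.imp <| (fb_gd x2 x1).imp <| (fb_gd x1 x0).imp (fb_gd x2 x0)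
  have h9 : Ax (fun S : LG.Structure ℕ => ∀ u v, dr (gd S) u → dr (gd S) v → gd S u v →
      ∃ w, dr (gd S) w ∧ gd S u w ∧ gd S w v) :=
    Ax.of <| FD.all1 <| FD.all1 <| (fu_dr x1).imp <| (fu_dr x0).imp <| (fb_gd x1 x0).imp <|
      FD.ex1 <| (fu_dr x0).and <| (fb_gd x2 x0).and (fb_gd x0 x1)
  have h10 : Ax (fun S : LG.Structure ℕ => ∀ u v, ¬ dr (gd S) u → ¬ dr (gd S) v → gd S u v →
      ∃ w, ¬ dr (gd S) w ∧ gd S u w ∧ gd S w v) :=
    Ax.of <| FD.all1 <| FD.all1 <| (fu_dr x1).not.imp <| (fu_dr x0).not.imp <|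
      (fb_gd x1 x0).imp <| FD.ex1 <| (fu_dr x0).not.and <| (fb_gd x2 x0).and (fb_gd x0 x1)
  have h11 : Ax (fun S : LG.Structure ℕ => ∀ u, dr (gd S) u → ∃ w, dr (gd S) w ∧ gd S u w) :=
    Ax.of <| FD.all1 <| (fu_dr x0).imp <| FD.ex1 <| (fu_dr x0).and (fb_gd x1 x0)
  have h12 : Ax (fun S : LG.Structure ℕ => ∀ u, dr (gd S) u → ∃ w, dr (gd S) w ∧ gd S w u) :=
    Ax.of <| FD.all1 <| (fu_dr x0).imp <| FD.ex1 <| (fu_dr x0).and (fb_gd x0 x1)
  have h13 : Ax (fun S : LG.Structure ℕ => ∀ u, ¬ dr (gd S) u →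
      ∃ w, ¬ dr (gd S) w ∧ gd S u w) :=
    Ax.of <| FD.all1 <| (fu_dr x0).not.imp <| FD.ex1 <| (fu_dr x0).not.and (fb_gd x1 x0)
  have h14 : Ax (fun S : LG.Structure ℕ => ∀ u, ¬ dr (gd S) u →
      ∃ w, ¬ dr (gd S) w ∧ gd S w u) :=
    Ax.of <| FD.all1 <| (fu_dr x0).not.imp <| FD.ex1 <| (fu_dr x0).not.and (fb_gd x0 x1)
  refine (h1.and <| h2.and <| h3.and <| h4.and <| h5.and <| h6.and <| h7.and <| h8.and <|
    h9.and <| h10.and <| h11.and <| h12.and <| h13.and h14).congr fun S => ?_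
  exact ⟨fun ⟨a, b, c, d, e, f, g, h, i, j, k, l, m, n⟩ => ⟨a, b, c, d, e, f, g, h, i, j, k, l, m, n⟩,
    fun ⟨a, b, c, d, e, f, g, h, i, j, k, l, m, n⟩ => ⟨a, b, c, d, e, f, g, h, i, j, k, l, m, n⟩⟩

theorem TW.inf {S : LG.Structure ℕ} (h : TW S) (N : ℕ) : ∃ u, N ≤ u ∧ dr (gd S) u := by
  classical
  by_contra hcon
  push Not at hcon
  have hf1 : {u | dr (gd S) u}.Finite := (Set.finite_Iio N).subset fun u hu => by
    by_contra h1
    exact hcon u (not_lt.1 h1) hu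
  have hf2 : {u | ¬ dr (gd S) u}.Finite :=
    (hf1.image fun u => if h : ∃ v, pr (gd S) u v then h.choose else 0).subset fun v hv => by
      obtain ⟨u, hu⟩ := h.pc v hv
      have hex : ∃ v, pr (gd S) u v := ⟨v, hu⟩
      refine ⟨u, hex, ?_⟩
      beta_reduce
      rw [dif_pos hex]
      exact h.fn hex.choose_spec hu
  have h3 : (Set.univ : Set ℕ).Finite := (hf1.union hf2).subset fun u _ => em (dr (gd S) u)
  exact Set.infinite_univ h3

/-- the second order -/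
def sr (S : LG.Structure ℕ) (u v : ℕ) : Prop := ∃ u' v', pr (gd S) u u' ∧ pr (gd S) v v' ∧ gd S u' v'

theorem fb_sr : FB sr := fun i j => FD.ex1 <| FD.ex1 <| (fb_pr (Sum.inl (Sum.inl i)) x1).and <|
  (fb_pr (Sum.inl (Sum.inl j)) x0).and (fb_gd x1 x0)

/-- the interpretation -/
def IT : Itp L2 LG where
  W := TW
  axW := ax_TW
  dom := fun S => dr (gd S)
  rel := fun {n} Q => match n, Q with
    | _, R2.fst => fun S u => gd S (u 0) (u 1)
    | _, R2.snd => fun S u => sr S (u 0) (u 1)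
  fdom := (fu_dr ()).mono fun _ _ => trivial
  frel := fun {n} Q => match n, Q with
    | _, R2.fst => (fb_gd 0 1).mono fun _ _ => trivial
    | _, R2.snd => (fb_sr 0 1).mono fun _ _ => trivial
  inf := fun _ h => TW.inf h

end Pool.Agent.Helper38.MT
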