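import Pool.Agent.Helper38.MT.Up

set_option autoImplicit false

/-!
# Existence of the tournaments, and the reduction
-/

namespace Pool.Agent.Helper38.MT

open FirstOrder FirstOrder.Language
open Pool.Agent.W889.FO Pool.Agent.W889.VC
open Pool.Agent.W889.FO.StE (LG gd fd_gd)
open Pool.Agent.TH686.FO Pool.Agent.TH686.DO
open Pool.Agent.TH686.MC (tq MartinN)
open Pool.Agent.Helper60.MF (CM transferJC)

/-- the tournament on two copies of the natural numbers -/
def To (l k : ℕ → ℕ → Prop) : ℕ ⊕ ℕ → ℕ ⊕ ℕ → Prop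
  | Sum.inl a, Sum.inl b => l a b
  | Sum.inl a, Sum.inr b => a = b
  | Sum.inr a, Sum.inl b => a ≠ b
  | Sum.inr a, Sum.inr b => k a b

variable {l k : ℕ → ℕ → Prop}

theorem pr_To (hl : DL1 l) (hk : DL1 k) (x y : ℕ ⊕ ℕ) :
    pr (To l k) x y ↔ ∃ a, x = Sum.inl a ∧ y = Sum.inr a := by
  constructor
  · rintro ⟨h1, h2⟩
    rcases x with a | a <;> rcases y with b | b
    · have e : b = a := h2 (Sum.inr a) (show a = a from rfl) (by simp)
      subst e
      exact absurd h1 (hl.slo.irrefl _)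
    · have e : a = b := h1
      subst e
      exact ⟨a, rfl, rfl⟩
    · obtain ⟨c, h3⟩ := hk.ab a
      obtain ⟨d, h4⟩ := hk.ab c
      have e1 : b = c := h2 (Sum.inr c) h3 (by simp)
      have e2 : b = d := h2 (Sum.inr d) (show k a d from hk.slo.trans _ _ _ h3 h4) (by simp)
      rw [← e1, ← e2] at h4
      exact absurd h4 (hk.slo.irrefl _)
    · have h1' : k a b := h1
      have h3 : a ≠ b := by
        intro e
        rw [e] at h1'
        exact hk.slo.irrefl _ h1'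
      have h4 : b ≠ b := h2 (Sum.inl b) h3 (by simp)
      exact absurd rfl h4
  · rintro ⟨a, rfl, rfl⟩
    refine ⟨show a = a from rfl, fun w h1 h2 => ?_⟩
    rcases w with b | b
    · have h1' : l a b := h1
      show a ≠ b
      intro e
      rw [e] at h1'
      exact hl.slo.irrefl _ h1'
    · have e : a = b := h1
      exact absurd (congrArg Sum.inr e.symm) h2

theorem dr_To (hl : DL1 l) (hk : DL1 k) (x : ℕ ⊕ ℕ) : dr (To l k) x ↔ ∃ a, x = Sum.inl a := by
  constructor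
  · rintro ⟨y, hy⟩
    obtain ⟨a, h, -⟩ := (pr_To hl hk _ _).1 hy
    exact ⟨a, h⟩
  · rintro ⟨a, rfl⟩
    exact ⟨Sum.inr a, (pr_To hl hk _ _).2 ⟨a, rfl, rfl⟩⟩

theorem ndr_To (hl : DL1 l) (hk : DL1 k) (x : ℕ ⊕ ℕ) : ¬ dr (To l k) x ↔ ∃ a, x = Sum.inr a := by
  rw [dr_To hl hk]
  constructor
  · intro h
    rcases x with a | a
    · exact absurd ⟨a, rfl⟩ h
    · exact ⟨a, rfl⟩
  · rintro ⟨a, rfl⟩ ⟨b, hb⟩
    cases hb

theorem tr_To (hl : DL1 l) (hk : DL1 k) : TR (To l k) where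
  ir := by
    rintro (a | a)
    · exact hl.slo.irrefl a
    · exact hk.slo.irrefl a
  as := by
    rintro (a | a) (b | b) h1 h2
    · exact hl.slo.irrefl _ (hl.slo.trans _ _ _ h1 h2)
    · exact h2 (Eq.symm h1)
    · exact h1 (Eq.symm h2)
    · exact hk.slo.irrefl _ (hk.slo.trans _ _ _ h1 h2)
  tt := by
    rintro (a | a) (b | b) h
    · exact hl.slo.total a b fun e => h (by rw [e])
    · by_cases e : a = b
      · exact Or.inl e
      · exact Or.inr fun e' => e e'.symm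
    · by_cases e : a = b
      · exact Or.inr e.symm
      · exact Or.inl e
    · exact hk.slo.total a b fun e => h (by rw [e])
  pb := by
    intro u v h
    obtain ⟨a, rfl, rfl⟩ := (pr_To hl hk _ _).1 h
    exact (ndr_To hl hk _).2 ⟨a, rfl⟩
  pc := by
    intro v hv
    obtain ⟨a, rfl⟩ := (ndr_To hl hk _).1 hv
    exact ⟨Sum.inl a, (pr_To hl hk _ _).2 ⟨a, rfl, rfl⟩⟩
  cr := by
    intro u v hu hv hp
    obtain ⟨a, rfl⟩ := (dr_To hl hk _).1 hu
    obtain ⟨b, rfl⟩ := (ndr_To hl hk _).1 hv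
    show b ≠ a
    intro e
    exact hp ((pr_To hl hk _ _).2 ⟨a, rfl, by rw [e]⟩)
  t0 := by
    intro u v w hu hv hw h1 h2
    obtain ⟨a, rfl⟩ := (dr_To hl hk _).1 hu
    obtain ⟨b, rfl⟩ := (dr_To hl hk _).1 hv
    obtain ⟨c, rfl⟩ := (dr_To hl hk _).1 hw
    exact hl.slo.trans _ _ _ h1 h2
  t1 := by
    intro u v w hu hv hw h1 h2
    obtain ⟨a, rfl⟩ := (ndr_To hl hk _).1 hu
    obtain ⟨b, rfl⟩ := (ndr_To hl hk _).1 hv
    obtain ⟨c, rfl⟩ := (ndr_To hl hk _).1 hw
    exact hk.slo.trans _ _ _ h1 h2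
  d0 := by
    intro u v hu hv h1
    obtain ⟨a, rfl⟩ := (dr_To hl hk _).1 hu
    obtain ⟨b, rfl⟩ := (dr_To hl hk _).1 hv
    obtain ⟨c, h2, h3⟩ := hl.dn a b h1
    exact ⟨Sum.inl c, (dr_To hl hk _).2 ⟨c, rfl⟩, h2, h3⟩
  d1 := by
    intro u v hu hv h1
    obtain ⟨a, rfl⟩ := (ndr_To hl hk _).1 hu
    obtain ⟨b, rfl⟩ := (ndr_To hl hk _).1 hv
    obtain ⟨c, h2, h3⟩ := hk.dn a b h1
    exact ⟨Sum.inr c, (ndr_To hl hk _).2 ⟨c, rfl⟩, h2, h3⟩
  a0 := by
    intro u hu
    obtain ⟨a, rfl⟩ := (dr_To hl hk _).1 hu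
    obtain ⟨c, h2⟩ := hl.ab a
    exact ⟨Sum.inl c, (dr_To hl hk _).2 ⟨c, rfl⟩, h2⟩
  b0 := by
    intro u hu
    obtain ⟨a, rfl⟩ := (dr_To hl hk _).1 hu
    obtain ⟨c, h2⟩ := hl.be a
    exact ⟨Sum.inl c, (dr_To hl hk _).2 ⟨c, rfl⟩, h2⟩
  a1 := by
    intro u hu
    obtain ⟨a, rfl⟩ := (ndr_To hl hk _).1 hu
    obtain ⟨c, h2⟩ := hk.ab a
    exact ⟨Sum.inr c, (ndr_To hl hk _).2 ⟨c, rfl⟩, h2⟩
  b1 := by
    intro u hu
    obtain ⟨a, rfl⟩ := (ndr_To hl hk _).1 hu
    obtain ⟨c, h2⟩ := hk.be a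
    exact ⟨Sum.inr c, (ndr_To hl hk _).2 ⟨c, rfl⟩, h2⟩

section map

variable {X Y : Type} {r : X → X → Prop}

theorem pr_map (π : Y ≃ X) (u v : Y) : pr (fun u v => r (π u) (π v)) u v ↔ pr r (π u) (π v) := by
  constructor
  · rintro ⟨h1, h2⟩
    refine ⟨h1, fun w hw hne => ?_⟩
    have h3 := h2 (π.symm w) (by
      beta_reduce
      rw [Equiv.apply_symm_apply]
      exact hw) (fun e => hne (by rw [← e, Equiv.apply_symm_apply]))
    beta_reduce at h3
    rw [Equiv.apply_symm_apply] at h3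
    exact h3
  · rintro ⟨h1, h2⟩
    exact ⟨h1, fun w hw hne => h2 (π w) hw fun e => hne (π.injective e)⟩

theorem dr_map (π : Y ≃ X) (u : Y) : dr (fun u v => r (π u) (π v)) u ↔ dr r (π u) := by
  constructor
  · rintro ⟨v, hv⟩
    exact ⟨π v, (pr_map π u v).1 hv⟩
  · rintro ⟨v, hv⟩
    refine ⟨π.symm v, (pr_map π u _).2 ?_⟩
    rw [Equiv.apply_symm_apply]
    exact hv

theorem TR.map (h : TR r) (π : Y ≃ X) : TR (fun u v => r (π u) (π v)) where
  ir := fun u => h.ir _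
  as := fun u v => h.as _ _
  tt := fun u v hne => h.tt _ _ fun e => hne (π.injective e)
  pb := by
    intro u v hp
    rw [dr_map]
    exact h.pb _ _ ((pr_map π u v).1 hp)
  pc := by
    intro v hv
    rw [dr_map] at hv
    obtain ⟨u, hu⟩ := h.pc _ hv
    refine ⟨π.symm u, (pr_map π _ _).2 ?_⟩
    rw [Equiv.apply_symm_apply]
    exact hu
  cr := by
    intro u v hu hv hp
    rw [dr_map] at hu hv
    rw [pr_map] at hp
    exact h.cr _ _ hu hv hp
  t0 := by
    intro u v w hu hv hw h1 h2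
    rw [dr_map] at hu hv hw
    exact h.t0 _ _ _ hu hv hw h1 h2
  t1 := by
    intro u v w hu hv hw h1 h2
    rw [dr_map] at hu hv hw
    exact h.t1 _ _ _ hu hv hw h1 h2
  d0 := by
    intro u v hu hv h1
    rw [dr_map] at hu hv
    obtain ⟨w, h2, h3, h4⟩ := h.d0 _ _ hu hv h1
    refine ⟨π.symm w, ?_, ?_, ?_⟩
    · rw [dr_map, Equiv.apply_symm_apply]
      exact h2
    · beta_reduce
      rw [Equiv.apply_symm_apply]
      exact h3
    · beta_reduce
      rw [Equiv.apply_symm_apply]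
      exact h4
  d1 := by
    intro u v hu hv h1
    rw [dr_map] at hu hv
    obtain ⟨w, h2, h3, h4⟩ := h.d1 _ _ hu hv h1
    refine ⟨π.symm w, ?_, ?_, ?_⟩
    · rw [dr_map, Equiv.apply_symm_apply]
      exact h2
    · beta_reduce
      rw [Equiv.apply_symm_apply]
      exact h3
    · beta_reduce
      rw [Equiv.apply_symm_apply]
      exact h4
  a0 := by
    intro u hu
    rw [dr_map] at hu
    obtain ⟨w, h2, h3⟩ := h.a0 _ hu
    refine ⟨π.symm w, ?_, ?_⟩
    · rw [dr_map, Equiv.apply_symm_apply]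
      exact h2
    · beta_reduce
      rw [Equiv.apply_symm_apply]
      exact h3
  b0 := by
    intro u hu
    rw [dr_map] at hu
    obtain ⟨w, h2, h3⟩ := h.b0 _ hu
    refine ⟨π.symm w, ?_, ?_⟩
    · rw [dr_map, Equiv.apply_symm_apply]
      exact h2
    · beta_reduce
      rw [Equiv.apply_symm_apply]
      exact h3
  a1 := by
    intro u hu
    rw [dr_map] at hu
    obtain ⟨w, h2, h3⟩ := h.a1 _ hu
    refine ⟨π.symm w, ?_, ?_⟩
    · rw [dr_map, Equiv.apply_symm_apply]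
      exact h2
    · beta_reduce
      rw [Equiv.apply_symm_apply]
      exact h3
  b1 := by
    intro u hu
    rw [dr_map] at hu
    obtain ⟨w, h2, h3⟩ := h.b1 _ hu
    refine ⟨π.symm w, ?_, ?_⟩
    · rw [dr_map, Equiv.apply_symm_apply]
      exact h2
    · beta_reduce
      rw [Equiv.apply_symm_apply]
      exact h3

end map

/-- the structure given by a relation -/
@[reducible] def ofr (y : ℕ → ℕ → Prop) : LG.Structure ℕ :=
  { funMap := fun {_} f => isEmptyElim f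
    RelMap := fun {n} Q => match n, Q with
      | _, FirstOrder.Language.graphRel.adj => fun v => y (v 0) (v 1) }

theorem gd_ofr (y : ℕ → ℕ → Prop) : gd (ofr y) = y := rfl

theorem exT (M : L2.Structure ℕ) (hl : DL1 (g1 M)) (hk : DL1 (g2 M)) :
    ∃ S, TW S ∧ SIso ((tq IT).D S) M := by
  obtain ⟨π⟩ : Nonempty (ℕ ≃ ℕ ⊕ ℕ) := nonempty_equiv_of_countable
  let S := ofr (fun u v => To (g1 M) (g2 M) (π u) (π v))
  have hW : TW S := (tr_To hl hk).map π
  have hpr : ∀ u v, pr (gd S) u v ↔ ∃ a, π u = Sum.inl a ∧ π v = Sum.inr a := fun u v =>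
    (pr_map π u v).trans (pr_To hl hk _ _)
  have hdm : ∀ u, dr (gd S) u ↔ ∃ a, π u = Sum.inl a := fun u =>
    (dr_map π u).trans (dr_To hl hk _)
  have hval : ∀ u, dr (gd S) u → π u = Sum.inl (Sum.elim id id (π u)) := by
    intro u hu
    obtain ⟨a, ha⟩ := (hdm u).1 hu
    rw [ha]
    rfl
  have hsr : ∀ u v, dr (gd S) u → dr (gd S) v →
      (sr S u v ↔ g2 M (Sum.elim id id (π u)) (Sum.elim id id (π v))) := by
    intro u v hu hv
    obtain ⟨a, ha⟩ := (hdm u).1 hu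
    obtain ⟨b, hb⟩ := (hdm v).1 hv
    rw [ha, hb]
    show _ ↔ g2 M a b
    constructor
    · rintro ⟨u', v', h1, h2, h3⟩
      obtain ⟨a', ha', hau⟩ := (hpr _ _).1 h1
      obtain ⟨b', hb', hbv⟩ := (hpr _ _).1 h2
      have ea : a' = a := Sum.inl.inj (ha'.symm.trans ha)
      have eb : b' = b := Sum.inl.inj (hb'.symm.trans hb)
      subst ea
      subst eb
      have h3' : To (g1 M) (g2 M) (π u') (π v') := h3
      rw [hau, hbv] at h3'
      exact h3'
    · intro h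
      refine ⟨π.symm (Sum.inr a), π.symm (Sum.inr b), (hpr _ _).2 ⟨a, ha, ?_⟩,
        (hpr _ _).2 ⟨b, hb, ?_⟩, ?_⟩
      · rw [Equiv.apply_symm_apply]
      · rw [Equiv.apply_symm_apply]
      · show To (g1 M) (g2 M) (π (π.symm (Sum.inr a))) (π (π.symm (Sum.inr b)))
        rw [Equiv.apply_symm_apply, Equiv.apply_symm_apply]
        exact h
  refine ⟨S, hW, Itq_D_iso (tq IT) (S := S) hW M (fun u => Sum.elim id id (π u)) (fun n => ?_)
    (fun u v hu hv => ?_) fun {n} Q u hu => ?_⟩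
  · exact ⟨π.symm (Sum.inl n), (hdm _).2 ⟨n, π.apply_symm_apply _⟩, by
      rw [Equiv.apply_symm_apply]
      rfl⟩
  · show u = v ↔ Sum.elim id id (π u) = Sum.elim id id (π v)
    constructor
    · rintro rfl
      rfl
    · intro h1
      apply π.injective
      rw [hval u hu, hval v hv, h1]
  · cases Q with
    | fst =>
      show gd S (u 0) (u 1) ↔ @Structure.RelMap L2 ℕ M 2 R2.fst _
      rw [← two_eta fun i => Sum.elim id id (π (u i))]
      show To (g1 M) (g2 M) (π (u 0)) (π (u 1)) ↔ g1 M _ _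
      rw [hval _ (hu 0), hval _ (hu 1)]
      exact Iff.rfl
    | snd =>
      show sr S (u 0) (u 1) ↔ @Structure.RelMap L2 ℕ M 2 R2.snd _
      rw [← two_eta fun i => Sum.elim id id (π (u i))]
      exact hsr _ _ (hu 0) (hu 1)

/-- the reduction to the tournaments -/
theorem reduceTn (hV : ∀ T : LG.Theory, T.IsComplete → CM T →
      (∀ S : LG.Structure ℕ, @Theory.Model LG ℕ S T → TW S) → MartinN T)
    (T : L2.Theory) (hfew : CM T)
    (hT : ∀ S : L2.Structure ℕ, @Theory.Model L2 ℕ S T → DL1 (g1 S) ∧ DL1 (g2 S)) :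
    MartinN T := by
  have := countable_L2
  have := StD.countable_LG
  refine transferJC (tq IT) gnT.sup T hfew (fun M hM => ?_) fun T' h1 h2 h3 => hV T' h1 h2 h3
  obtain ⟨S, h1, h2⟩ := exT M (hT M hM).1 (hT M hM).2
  exact ⟨S, h1, trivial, h2⟩

end Pool.Agent.Helper38.MT
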