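import Pool.Agent.Helper38.MT.Def

set_option autoImplicit false

/-!
# Isomorphisms of the tournaments from isomorphisms of the pairs of orders, and supports
-/

namespace Pool.Agent.Helper38.MT

open FirstOrder FirstOrder.Language
open Pool.Agent.W889.FO Pool.Agent.W889.VC
open Pool.Agent.W889.FO.StA (FD.all1 FD.ex1)
open Pool.Agent.W889.FO.StE (LG gd fd_gd)
open Pool.Agent.TH686.FO Pool.Agent.TH686.DO
open Pool.Agent.TH686.MC (tq Gn)

theorem siso_one {S S' : LG.Structure ℕ} (σ : Equiv.Perm ℕ)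
    (h1 : ∀ u v, gd S u v ↔ gd S' (σ u) (σ v)) :
    ∃ g : @FirstOrder.Language.Equiv LG ℕ ℕ S S', ∀ a, g a = σ a := by
  have e1 : ∀ v : Fin 2 → ℕ, ![v 0, v 1] = v := fun v => by
    funext m
    fin_cases m <;> rfl
  have e2 : ∀ v : Fin 2 → ℕ, ![σ (v 0), σ (v 1)] = fun i => σ (v i) := fun v => by
    funext m
    fin_cases m <;> rfl
  refine siso_of (S := S) (S' := S') σ (fun n Q v => ?_)
  cases Q with
  | adj =>
    have h := h1 (v 0) (v 1)
    unfold gd at h
    rw [e1, e2] at h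
    exact h.symm

theorem upT (S S' : LG.Structure ℕ) (h : TW S) (h' : TW S')
    (π : {u // dr (gd S) u} ≃ {u // dr (gd S') u})
    (hπ : ∀ {n : ℕ} (R : L2.Relations n) (u : Fin n → {u // dr (gd S) u}),
      IT.rel R S (fun i => u i) ↔ IT.rel R S' (fun i => π (u i))) :
    ∃ g : @FirstOrder.Language.Equiv LG ℕ ℕ S S', ∀ u (hu : dr (gd S) u), g u = π ⟨u, hu⟩ := by
  let R0 : ℕ → ℕ → Prop := fun u v => ∃ hu : dr (gd S) u, (π ⟨u, hu⟩ : ℕ) = v
  let R1 : ℕ → ℕ → Prop := fun u v => ∃ u1 v1, pr (gd S) u1 u ∧ pr (gd S') v1 v ∧ R0 u1 v1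
  have d0 : ∀ {u v}, R0 u v → dr (gd S) u ∧ dr (gd S') v := fun ⟨h1, h2⟩ => ⟨h1, h2 ▸ (π ⟨_, h1⟩).2⟩
  have d1 : ∀ {u v}, R1 u v → ¬ dr (gd S) u ∧ ¬ dr (gd S') v := fun ⟨u1, v1, h1, h2, _⟩ =>
    ⟨h.pb _ _ h1, h'.pb _ _ h2⟩
  have t0 : ∀ u, dr (gd S) u → ∃ v, R0 u v := by
    intro u hu
    exact ⟨_, hu, rfl⟩
  have t0' : ∀ v, dr (gd S') v → ∃ u, R0 u v := by
    intro v hv
    exact ⟨π.symm ⟨v, hv⟩, (π.symm ⟨v, hv⟩).2, by rw [Subtype.coe_eta, Equiv.apply_symm_apply]⟩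
  have u0 : ∀ {u v v'}, R0 u v → R0 u v' → v = v' := by
    rintro u v v' ⟨h1, h2⟩ ⟨h3, h4⟩
    exact h2.symm.trans h4
  have u0' : ∀ {u u' v}, R0 u v → R0 u' v → u = u' := by
    rintro u u' v ⟨h1, h2⟩ ⟨h3, h4⟩
    exact congrArg Subtype.val (π.injective (Subtype.ext (h2.trans h4.symm)))
  have u1 : ∀ {u v v'}, R1 u v → R1 u v' → v = v' := by
    rintro u v v' ⟨a, b, h1, h2, h3⟩ ⟨a', b', h4, h5, h6⟩
    have e := h.inj h1 h4
    subst e
    have e' := u0 h3 h6
    subst e'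
    exact h'.fn h2 h5
  have u1' : ∀ {u u' v}, R1 u v → R1 u' v → u = u' := by
    rintro u u' v ⟨a, b, h1, h2, h3⟩ ⟨a', b', h4, h5, h6⟩
    have e := h'.inj h2 h5
    subst e
    have e' := u0' h3 h6
    subst e'
    exact h.fn h1 h4
  obtain ⟨e, he⟩ := Pool.Agent.W889.SD.equiv_of_rel (fun u v => R0 u v ∨ R1 u v)
    (fun u => by
      by_cases hu : dr (gd S) u
      · obtain ⟨v, hv⟩ := t0 u hu
        exact ⟨v, Or.inl hv⟩
      · obtain ⟨u', h1⟩ := h.pc u hu
        obtain ⟨v', h2⟩ := t0 u' ⟨u, h1⟩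
        obtain ⟨v, h3⟩ := (d0 h2).2
        exact ⟨v, Or.inr ⟨u', v', h1, h3, h2⟩⟩)
    (fun v => by
      by_cases hv : dr (gd S') v
      · obtain ⟨u, hu⟩ := t0' v hv
        exact ⟨u, Or.inl hu⟩
      · obtain ⟨v', h1⟩ := h'.pc v hv
        obtain ⟨u', h2⟩ := t0' v' ⟨v, h1⟩
        obtain ⟨u, h3⟩ := (d0 h2).1
        exact ⟨u, Or.inr ⟨u', v', h3, h1, h2⟩⟩)
    (by
      rintro u v v' (h1 | h1) (h2 | h2)
      · exact u0 h1 h2
      · exact absurd (d0 h1).1 (d1 h2).1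
      · exact absurd (d0 h2).1 (d1 h1).1
      · exact u1 h1 h2)
    (by
      rintro u u' v (h1 | h1) (h2 | h2)
      · exact u0' h1 h2
      · exact absurd (d0 h1).2 (d1 h2).2
      · exact absurd (d0 h2).2 (d1 h1).2
      · exact u1' h1 h2)
  have e0 : ∀ u, dr (gd S) u → R0 u (e u) := fun u hu => by
    rcases he u with h1 | h1
    · exact h1
    · exact absurd hu (d1 h1).1
  have e1 : ∀ u, ¬ dr (gd S) u → R1 u (e u) := fun u hu => by
    rcases he u with h1 | h1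
    · exact absurd (d0 h1).1 hu
    · exact h1
  have hd : ∀ u, dr (gd S) u ↔ dr (gd S') (e u) := fun u => by
    by_cases hu : dr (gd S) u
    · exact iff_of_true hu (d0 (e0 u hu)).2
    · exact iff_of_false hu (d1 (e1 u hu)).2
  have hp1 : ∀ u v, pr (gd S) u v → pr (gd S') (e u) (e v) := by
    intro u v huv
    obtain ⟨a, b, h1, h2, h3⟩ := e1 v (h.pb _ _ huv)
    have ea : a = u := h.inj h1 huv
    subst ea
    have eb : b = e a := u0 h3 (e0 a ⟨v, huv⟩)
    rw [← eb]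
    exact h2
  have hp : ∀ u v, pr (gd S) u v ↔ pr (gd S') (e u) (e v) := by
    intro u v
    refine ⟨hp1 u v, fun h1 => ?_⟩
    obtain ⟨w, hw⟩ := (hd u).2 ⟨_, h1⟩
    have h2 := h'.fn (hp1 u w hw) h1
    rw [← e.injective h2]
    exact hw
  have rr : ∀ (Q : L2.Relations 2) (u v : ℕ), dr (gd S) u → dr (gd S) v →
      (IT.rel Q S ![u, v] ↔ IT.rel Q S' ![e u, e v]) := by
    intro Q u v hu hv
    obtain ⟨_, h2⟩ := e0 u hu
    obtain ⟨_, h4⟩ := e0 v hv
    have h5 := hπ Q ![⟨u, hu⟩, ⟨v, hv⟩]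
    have h6 : (fun i => ((![⟨u, hu⟩, ⟨v, hv⟩] : Fin 2 → {u // dr (gd S) u}) i : ℕ)) = ![u, v] := by
      funext i
      fin_cases i <;> rfl
    have h7 : (fun i => (π ((![⟨u, hu⟩, ⟨v, hv⟩] : Fin 2 → {u // dr (gd S) u}) i) : ℕ)) =
        ![e u, e v] := by
      funext i
      fin_cases i
      · exact h2
      · exact h4
    rw [h6, h7] at h5
    exact h5
  have cross : ∀ u v, dr (gd S) u → ¬ dr (gd S) v → (gd S u v ↔ gd S' (e u) (e v)) := by
    intro u v hu hv
    rw [h.out hu hv, h'.out ((hd u).1 hu) (fun h1 => hv ((hd v).2 h1))]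
    exact hp u v
  have hlt : ∀ u v, gd S u v ↔ gd S' (e u) (e v) := by
    intro u v
    by_cases hu : dr (gd S) u <;> by_cases hv : dr (gd S) v
    · exact rr R2.fst u v hu hv
    · exact cross u v hu hv
    · have hne : u ≠ v := fun e => hu (by rw [e]; exact hv)
      have hne' : e u ≠ e v := fun e' => hne (e.injective e')
      rw [h.flip hne, h'.flip hne']
      exact not_congr (cross v u hv hu)
    · obtain ⟨u', h1⟩ := h.pc u hu
      obtain ⟨v', h2⟩ := h.pc v hv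
      have h3 : sr S u' v' ↔ sr S' (e u') (e v') := rr R2.snd u' v' ⟨u, h1⟩ ⟨v, h2⟩
      have h4 : gd S u v ↔ sr S u' v' := by
        constructor
        · exact fun h5 => ⟨u, v, h1, h2, h5⟩
        · rintro ⟨a, b, h5, h6, h7⟩
          rw [h.fn h1 h5, h.fn h2 h6]
          exact h7
      have c1 := hp1 _ _ h1
      have c2 := hp1 _ _ h2
      have h5 : gd S' (e u) (e v) ↔ sr S' (e u') (e v') := by
        constructor
        · exact fun h5 => ⟨e u, e v, c1, c2, h5⟩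
        · rintro ⟨a, b, h5, h6, h7⟩
          rw [h'.fn c1 h5, h'.fn c2 h6]
          exact h7
      rw [h4, h5]
      exact h3
  obtain ⟨g, hg⟩ := siso_one e hlt
  exact ⟨g, fun u hu => by
    rw [hg]
    exact (e0 u hu).2.symm⟩

/-- the supports of elements -/
def chT : Bool → LG.Structure ℕ → ℕ → (Fin 1 → ℕ) → Prop
  | true => fun S x w => dr (gd S) x ∧ w 0 = x
  | false => fun S x w => pr (gd S) (w 0) x

/-- supports -/
noncomputable def gnT : Gn IT (fun _ => True) (fun _ => ()) where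
  K := Bool
  wd := fun _ => 1
  χ := chT
  fd := fun κ => match κ with
    | true => ((fu_dr (Sum.inl ())).and (FD.eq (Sum.inr (0 : Fin 1)) (Sum.inl ()))).mono
        fun _ _ => trivial
    | false => (fb_pr (Sum.inr (0 : Fin 1)) (Sum.inl ())).mono fun _ _ => trivial
  dom := fun κ S x w _ hc j => by
    have e : j = 0 := Subsingleton.elim _ _
    subst e
    cases κ with
    | true =>
      have h1 : w 0 = x := hc.2
      rw [h1]
      exact hc.1
    | false => exact ⟨x, hc⟩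
  fn := fun κ S x w w' h hc hc' => by
    funext j
    have e : j = 0 := Subsingleton.elim _ _
    subst e
    cases κ with
    | true => exact hc.2.trans hc'.2.symm
    | false => exact TR.inj h hc hc'
  fx := fun κ S x x' w h hc hc' => by
    cases κ with
    | true => exact hc.2.symm.trans hc'.2
    | false => exact TR.fn h hc hc'
  tot := fun S h _ x => by
    by_cases hx : dr (gd S) x
    · exact ⟨true, fun _ => x, hx, rfl⟩
    · obtain ⟨y, hy⟩ := TR.pc h x hx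
      exact ⟨false, fun _ => y, hy⟩
  up := fun S S' h h' _ π hπ => upT S S' h h' π hπ
  rich := fun _ _ _ _ _ _ _ => ⟨∅, ∅, Set.countable_empty, Set.countable_empty,
    fun _ _ _ _ _ _ => rfl⟩

end Pool.Agent.Helper38.MT
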